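import Mathlib
import Pool.Agent.H764R3.Cube

/-!
# A compact D-separable space without a sigma-disjoint pi-base (in ZFC)

The space is the Cantor cube `2^κ` with `κ = ℶ_ω`. It satisfies the countable chain condition and has
uncountable `π`-weight, so it has no sigma-disjoint `π`-base. For D-separability we show, with the
theorem of Erdos and Rado for pairs, that in every family of at most `λ` subsets of `2^κ` of size
greater than `2^(2^(2^λ))` one can choose simultaneously points which form a discrete set; the
traces of a dense set on the boxes with coordinates in the first `n` levels are large enough.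
-/

set_option autoImplicit false

open Set Topology

namespace Pool.Agent.Results.MP_1644e0_gt.CantorCubeBethOmega

/-- There is, in ZFC, a compact Hausdorff space `X` which is D-separable (from every sequence of dense
subsets one can choose discrete subsets with dense union) and has no `π`-base which is the union of
countably many families of pairwise disjoint sets. -/
theorem result : ∃ (X : Type) (_ : TopologicalSpace X), CompactSpace X ∧ T2Space X ∧
    (∀ D : ℕ → Set X, (∀ n, Dense (D n)) →
      ∃ F : ℕ → Set X, (∀ n, F n ⊆ D n ∧ DiscreteTopology (F n)) ∧ Dense (⋃ n, F n)) ∧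
    ¬ ∃ B : ℕ → Set (Set X), (∀ n, (B n).PairwiseDisjoint id) ∧
      (∀ n, ∀ U ∈ B n, IsOpen U ∧ U.Nonempty) ∧
      ∀ V : Set X, IsOpen V → V.Nonempty → ∃ n, ∃ U ∈ B n, U ⊆ V := by
  refine ⟨Pool.Agent.H764R3.Cube.X, inferInstance, inferInstance, inferInstance,
    Pool.Agent.H764R3.Cube.dSeparable, ?_⟩
  rintro ⟨B, h1, h2, h3⟩
  exact Pool.Agent.H764R3.Cube.no_pibase ℕ B h1 h2 h3

end Pool.Agent.Results.MP_1644e0_gt.CantorCubeBethOmega
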